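import Pool.Agent.Helper36.LL.Size
import Pool.Agent.SP.Second
import Pool.Agent.SP.Cvx
import Pool.Agent.SP.Moves
import Pool.Agent.Helper36.LL.PairNat

/-!
Relations of one size inside a set with a large dissociated part.
-/

set_option autoImplicit false

namespace Pool.Agent.Helper36.LD

open Finset
open scoped ENNReal
open Pool.Agent.Helper36.LL (conv dlt FF tern FF_le_mass F_mass F emb emb_sum DSN filter_map)
open Pool.Agent.SP (SS sg FF_tern_sum mem_SS)
open Pool.Agent.Helper80.SU (Diss)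

theorem press_part {G : Type*} [AddCommGroup G] [DecidableEq G] {B D : Finset G} (hD : D ⊆ B)
    (hd : Diss D) {w : ℝ≥0∞} (hw : w ≤ 2⁻¹) :
    ∑ T ∈ SS B, w ^ (T.1.card + T.2.card) * dlt (0 - sg T.1 T.2) ≤
      (1 + 2 * w) ^ (B \ D).card := by
  rw [← FF_tern_sum]
  have h1 : B = D ∪ (B \ D) := (Finset.union_sdiff_of_subset hD).symm
  have h2 : FF (fun _ => tern w) B dlt =
      FF (fun _ => tern w) D (FF (fun _ => tern w) (B \ D) dlt) := by
    conv_lhs => rw [h1]
    exact Pool.Agent.SP.Mv.FF_union _ Finset.disjoint_sdiff _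
  rw [h2]
  have h3 : ∀ j, tern w j ≤ tern 2⁻¹ j := by
    intro j
    unfold Pool.Agent.Helper36.LL.tern
    split_ifs
    · exact le_rfl
    · exact hw
    · exact le_rfl
  calc FF (fun _ => tern w) D (FF (fun _ => tern w) (B \ D) dlt) 0
      ≤ FF (fun _ => tern 2⁻¹) D (FF (fun _ => tern w) (B \ D) dlt) 0 :=
        Pool.Agent.SP.Mv.FF_mono (fun _ _ j => h3 j) (fun _ => le_rfl) 0
    _ ≤ ∑' g, FF (fun _ => tern w) (B \ D) dlt g := FF_le_mass hd _
    _ = (∑' j, tern w j) ^ (B \ D).card := F_mass (tern w) (B \ D)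
    _ = _ := by rw [Pool.Agent.SP.CX.tsum_tern]

/-- The union of the supports of a family of relations. -/
def sup (S : Finset (Finset ℕ × Finset ℕ)) : Finset ℕ := S.biUnion fun R => R.1 ∪ R.2

theorem count_nat {S : Finset (Finset ℕ × Finset ℕ)} {t : ℕ}
    (hS : ∀ R ∈ S, Disjoint R.1 R.2 ∧ R.1.sum id = R.2.sum id ∧ R.1.card + R.2.card = t)
    {D : Finset ℕ} (hD : D ⊆ sup S) (hd : DSN D) {w : ℝ} (hw0 : 0 ≤ w) (hw : w ≤ 1 / 2) :
    (S.card : ℝ) * w ^ t ≤ (1 + 2 * w) ^ (sup S \ D).card := by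
  have hdd : Diss (D.map emb) := fun X Y hX hY h =>
    Pool.Agent.Helper36.LL.DS_of_DSN hd X Y hX hY h
  have hsub : D.map emb ⊆ (sup S).map emb := Finset.map_subset_map.2 hD
  have hw' : ENNReal.ofReal w ≤ 2⁻¹ := by
    have h : ENNReal.ofReal w ≤ ENNReal.ofReal (1 / 2) := ENNReal.ofReal_le_ofReal hw
    rwa [ENNReal.ofReal_div_of_pos (by norm_num), ENNReal.ofReal_one, ENNReal.ofReal_ofNat,
      one_div] at h
  have h1 := press_part hsub hdd hw'
  -- the relations of `S`
  set φ : Finset ℕ × Finset ℕ → Finset ℤ × Finset ℤ := fun R => (R.1.map emb, R.2.map emb) with hφ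
  have hinj : Set.InjOn φ (S : Set (Finset ℕ × Finset ℕ)) := by
    intro R _ R' _ h
    simp only [hφ, Prod.mk.injEq] at h
    exact Prod.ext (Finset.map_injective _ h.1) (Finset.map_injective _ h.2)
  have hmem : S.image φ ⊆ SS ((sup S).map emb) := by
    intro T hT
    obtain ⟨R, hR, rfl⟩ := Finset.mem_image.1 hT
    rw [mem_SS]
    have hsup : R.1 ∪ R.2 ⊆ sup S := fun x hx => Finset.mem_biUnion.2 ⟨R, hR, hx⟩
    refine ⟨Finset.map_subset_map.2 (Finset.subset_union_left.trans hsup),
      Finset.map_subset_map.2 (Finset.subset_union_right.trans hsup), ?_⟩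
    exact (Finset.disjoint_map _).2 (hS R hR).1
  have h2 : (S.card : ℝ≥0∞) * ENNReal.ofReal w ^ t ≤
      ∑ T ∈ SS ((sup S).map emb), ENNReal.ofReal w ^ (T.1.card + T.2.card) *
        dlt (0 - sg T.1 T.2) := by
    calc (S.card : ℝ≥0∞) * ENNReal.ofReal w ^ t
        = ∑ T ∈ S.image φ, ENNReal.ofReal w ^ (T.1.card + T.2.card) * dlt (0 - sg T.1 T.2) := by
          rw [Finset.sum_image hinj]
          rw [← nsmul_eq_mul, ← Finset.sum_const]
          refine Finset.sum_congr rfl fun R hR => ?_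
          obtain ⟨_, h4, h5⟩ := hS R hR
          have h6 : sg (R.1.map emb) (R.2.map emb) = 0 := by
            unfold Pool.Agent.SP.sg
            have e1 := emb_sum R.1
            have e2 := emb_sum R.2
            simp only [id] at e1 e2
            have e3 : (R.1.map emb).sum id - (R.2.map emb).sum id = 0 := by
              rw [emb_sum, emb_sum, h4, sub_self]
            simpa using e3
          simp only [hφ]
          rw [Finset.card_map, Finset.card_map, h5, h6, sub_zero]
          simp [Pool.Agent.Helper36.LL.dlt]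
      _ ≤ _ := Finset.sum_le_sum_of_subset hmem
  have h3 := h2.trans h1
  have e : ((sup S).map emb \ D.map emb).card = (sup S \ D).card := by
    rw [← Finset.map_sdiff, Finset.card_map]
  rw [e] at h3
  have h4 : ((S.card : ℝ≥0∞) * ENNReal.ofReal w ^ t) = ENNReal.ofReal ((S.card : ℝ) * w ^ t) := by
    rw [ENNReal.ofReal_mul (Nat.cast_nonneg _), ENNReal.ofReal_natCast, ENNReal.ofReal_pow hw0]
  have h5 : ((1 : ℝ≥0∞) + 2 * ENNReal.ofReal w) ^ (sup S \ D).card =
      ENNReal.ofReal ((1 + 2 * w) ^ (sup S \ D).card) := by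
    rw [ENNReal.ofReal_pow (by positivity), ENNReal.ofReal_add (by norm_num) (by positivity),
      ENNReal.ofReal_one, ENNReal.ofReal_mul (by norm_num), ENNReal.ofReal_ofNat]
  rw [h4, h5] at h3
  exact (ENNReal.ofReal_le_ofReal_iff (by positivity)).1 h3

/-- Few relations when the defect of the union is at most `C (t + log N)`. -/
theorem few {S : Finset (Finset ℕ × Finset ℕ)} (hne : S.Nonempty) {t : ℕ}
    (hS : ∀ R ∈ S, Disjoint R.1 R.2 ∧ R.1.sum id = R.2.sum id ∧ R.1.card + R.2.card = t)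
    {D : Finset ℕ} (hD : D ⊆ sup S) (hd : DSN D) {C : ℝ} {q : ℕ} (hq : 1 ≤ q)
    (hCq : 4 * C ≤ 2 ^ q)
    (hdef : (((sup S \ D).card : ℕ) : ℝ) ≤ C * (t + Real.log S.card)) :
    S.card ≤ (2 ^ (2 * q + 2)) ^ t := by
  have hN1 : (1 : ℝ) ≤ S.card := by exact_mod_cast hne.card_pos
  have hN0 : (0 : ℝ) < S.card := by linarith
  have hlog : 0 ≤ Real.log S.card := Real.log_nonneg hN1
  have hq2 : (2 : ℝ) ≤ 2 ^ q := by
    calc (2 : ℝ) = 2 ^ 1 := by norm_num
      _ ≤ 2 ^ q := pow_le_pow_right₀ (by norm_num) hq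
  set w : ℝ := 1 / 2 ^ q with hw
  have hw0 : 0 < w := by positivity
  have hw1 : w ≤ 1 / 2 := by
    rw [hw]
    exact one_div_le_one_div_of_le (by norm_num) hq2
  have h1 := count_nat hS hD hd hw0.le hw1
  have h2 : (1 + 2 * w) ^ (sup S \ D).card ≤ Real.exp ((t + Real.log S.card) / 2) := by
    have e1 : (1 + 2 * w) ≤ Real.exp (2 * w) := by
      have := Real.add_one_le_exp (2 * w)
      linarith
    calc (1 + 2 * w) ^ (sup S \ D).card ≤ Real.exp (2 * w) ^ (sup S \ D).card :=
          pow_le_pow_left₀ (by positivity) e1 _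
      _ = Real.exp ((sup S \ D).card * (2 * w)) := by rw [← Real.exp_nat_mul]
      _ ≤ _ := by
        refine Real.exp_le_exp.2 ?_
        have h3 : (((sup S \ D).card : ℕ) : ℝ) * (2 * w) ≤
            C * (t + Real.log S.card) * (2 * w) :=
          mul_le_mul_of_nonneg_right hdef (by positivity)
        have h4 : C * (2 * w) ≤ 1 / 2 := by
          have h5 : 4 * C * w ≤ 2 ^ q * w := mul_le_mul_of_nonneg_right hCq hw0.le
          have h6 : (2 : ℝ) ^ q * w = 1 := by
            rw [hw]
            field_simp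
          nlinarith
        have h7 : 0 ≤ (t : ℝ) + Real.log S.card := by positivity
        calc (((sup S \ D).card : ℕ) : ℝ) * (2 * w) ≤ C * (t + Real.log S.card) * (2 * w) := h3
          _ = (C * (2 * w)) * (t + Real.log S.card) := by ring
          _ ≤ (1 / 2) * (t + Real.log S.card) := mul_le_mul_of_nonneg_right h4 h7
          _ = _ := by ring
  have h3 := h1.trans h2
  -- take logarithms
  have h4 : Real.log S.card + t * Real.log w ≤ (t + Real.log S.card) / 2 := by
    have h5 := Real.log_le_log (by positivity) h3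
    rwa [Real.log_exp, Real.log_mul (by positivity) (by positivity), Real.log_pow] at h5
  have h5 : Real.log w = -(q * Real.log 2) := by
    rw [hw, one_div, Real.log_inv, Real.log_pow]
  have h6 : Real.log S.card ≤ t * (1 + 2 * q * Real.log 2) := by
    rw [h5] at h4
    nlinarith
  have h7 : Real.log S.card ≤ Real.log (((2 ^ (2 * q + 2)) ^ t : ℕ) : ℝ) := by
    refine h6.trans ?_
    push_cast
    rw [Real.log_pow, Real.log_pow]
    have h8 : (1 : ℝ) ≤ 2 * Real.log 2 := by
      have := Real.log_two_gt_d9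
      linarith
    have h9 : (0 : ℝ) ≤ t := Nat.cast_nonneg t
    refine mul_le_mul_of_nonneg_left ?_ h9
    push_cast
    nlinarith
  have h8 := (Real.log_le_log_iff hN0 (by positivity)).1 h7
  exact_mod_cast h8

end Pool.Agent.Helper36.LD
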