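import Pool.Agent.SP.Lll

/-!
The local lemma for hypergraphs whose degrees grow exponentially with the size of the edges.
-/

set_option autoImplicit false

namespace Pool.Agent.Helper36.LD

open Finset
open Pool.Agent.Helper14.Sq (DependsOn')
open Pool.Agent.Helper14.Pcf (lll_weights)
open Pool.Agent.SP (mono mono_dep mono_card)

theorem lll_hyperb {G : Type*} [DecidableEq G] (b : ℕ) (hb : 1 ≤ b) (𝒢 : Finset (Finset G))
    (h2 : ∀ D ∈ 𝒢, 2 ≤ D.card)
    (h : ∀ v, ∑ D ∈ 𝒢.filter (fun D => v ∈ D), (1 / 2 ^ b : ℝ) ^ D.card ≤ 1 / 4) :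
    ∃ f : G → Fin (2 ^ (2 * b + 2)), ∀ D ∈ 𝒢, ∃ x ∈ D, ∃ y ∈ D, f x ≠ f y := by
  classical
  have : Nonempty (Fin (2 ^ (2 * b + 2))) := ⟨⟨0, by positivity⟩⟩
  have hb2 : (1 / 2 ^ b : ℝ) ≤ 1 / 2 := by
    apply one_div_le_one_div_of_le (by norm_num)
    calc (2 : ℝ) = 2 ^ 1 := by norm_num
      _ ≤ 2 ^ b := pow_le_pow_right₀ (by norm_num) hb
  have hb0 : (0 : ℝ) ≤ 1 / 2 ^ b := by positivity
  set X : Finset G := 𝒢.biUnion id with hX
  have hDX : ∀ D ∈ 𝒢, D ⊆ X := fun D hD x hx => Finset.mem_biUnion.2 ⟨D, hD, hx⟩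
  set T : Finset G → Finset X := fun D => Finset.univ.filter fun v => (v : G) ∈ D with hT
  have hTcard : ∀ D ∈ 𝒢, (T D).card = D.card := by
    intro D hD
    have : (T D).map ⟨Subtype.val, Subtype.val_injective⟩ = D := by
      ext x
      simp only [hT, Finset.mem_map, Finset.mem_filter, Finset.mem_univ, true_and,
        Function.Embedding.coeFn_mk]
      constructor
      · rintro ⟨v, hv, rfl⟩; exact hv
      · intro hx; exact ⟨⟨x, hDX D hD hx⟩, hx, rfl⟩
    rw [← Finset.card_map ⟨Subtype.val, Subtype.val_injective⟩, this]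
  have key := lll_weights (V := X) (A := Fin (2 ^ (2 * b + 2)))
    (fun D => mono (Fin (2 ^ (2 * b + 2))) (T D)) T 𝒢
    (fun D _ => mono_dep (T D)) (fun D => (1 / 2 ^ b : ℝ) ^ D.card)
    (fun D _ => by positivity)
    (fun D hD => by
      have h1 := h2 D hD
      calc (1 / 2 ^ b : ℝ) ^ D.card ≤ (1 / 2 ^ b : ℝ) ^ 1 :=
            pow_le_pow_of_le_one hb0 (by linarith) (by omega)
        _ ≤ 1 / 2 := by rw [pow_one]; exact hb2)
    (1 / 4)
    (fun v => by
      rw [← Finset.sum_filter]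
      have e : (𝒢.filter fun D => v ∈ T D) = 𝒢.filter fun D => (v : G) ∈ D := by
        ext D; simp [hT]
      rw [e]
      exact h v)
    (fun D hD => by
      have h1 := h2 D hD
      have hc := hTcard D hD
      have hne : (T D).Nonempty := by rw [← Finset.card_pos, hc]; omega
      have h3 := mono_card (A := Fin (2 ^ (2 * b + 2))) hne
      rw [hc] at h3
      have hexp : Real.exp (2 * (1 / 4) * ((T D).card : ℝ)) ≤ 2 ^ D.card := by
        rw [hc]
        have e1 : Real.exp (1 / 2) ≤ 2 := by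
          have := Real.exp_one_lt_d9
          have h5 : Real.exp (1 / 2) ^ 2 = Real.exp 1 := by
            rw [← Real.exp_nat_mul]; norm_num
          nlinarith [Real.exp_pos (1 / 2)]
        calc Real.exp (2 * (1 / 4) * (D.card : ℝ)) = Real.exp (1 / 2) ^ D.card := by
              rw [← Real.exp_nat_mul]; congr 1; ring
          _ ≤ 2 ^ D.card := pow_le_pow_left₀ (Real.exp_pos _).le e1 _
      have h6 : ((mono (Fin (2 ^ (2 * b + 2))) (T D)).card : ℝ) *
          (2 ^ (2 * b + 2)) ^ (D.card - 1)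
          ≤ (Fintype.card (X → Fin (2 ^ (2 * b + 2))) : ℝ) := by
        have h10 := (Nat.cast_le (α := ℝ)).2 h3
        rw [Fintype.card_fin, Nat.cast_mul, Nat.cast_pow, Nat.cast_pow, Nat.cast_ofNat] at h10
        exact h10
      have h7 : (2 : ℝ) ^ D.card * 2 ^ (b * D.card) ≤ (2 ^ (2 * b + 2)) ^ (D.card - 1) := by
        rw [← pow_add, ← pow_mul]
        refine pow_le_pow_right₀ (by norm_num) ?_
        obtain ⟨d, hd⟩ : ∃ d, D.card = d + 2 := ⟨D.card - 2, by omega⟩
        rw [hd]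
        have e : d + 2 - 1 = d + 1 := by omega
        rw [e]
        nlinarith
      have h8 : (1 / 2 ^ b : ℝ) ^ D.card * 2 ^ (b * D.card) = 1 := by
        rw [pow_mul, ← mul_pow]
        have : (1 / 2 ^ b : ℝ) * 2 ^ b = 1 := by field_simp
        rw [this, one_pow]
      set m : ℝ := ((mono (Fin (2 ^ (2 * b + 2))) (T D)).card : ℝ) with hm
      have hm0 : 0 ≤ m := Nat.cast_nonneg _
      have h9 : 0 ≤ (1 / 2 ^ b : ℝ) ^ D.card := by positivity
      calc m * Real.exp (2 * (1 / 4) * ((T D).card : ℝ)) ≤ m * 2 ^ D.card := by gcongr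
        _ = (1 / 2 ^ b : ℝ) ^ D.card * (m * (2 ^ D.card * 2 ^ (b * D.card))) := by
            calc m * 2 ^ D.card = ((1 / 2 ^ b : ℝ) ^ D.card * 2 ^ (b * D.card)) *
                (m * 2 ^ D.card) := by rw [h8, one_mul]
              _ = _ := by ring
        _ ≤ (1 / 2 ^ b : ℝ) ^ D.card * (m * (2 ^ (2 * b + 2)) ^ (D.card - 1)) := by gcongr
        _ ≤ _ := by gcongr)
  obtain ⟨a, ha⟩ := key
  refine ⟨fun x => if hx : x ∈ X then a ⟨x, hx⟩ else ⟨0, by positivity⟩, fun D hD => ?_⟩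
  by_contra hcon
  push Not at hcon
  apply ha D hD
  simp only [mono, Finset.mem_filter, Finset.mem_univ, true_and]
  intro x hx y hy
  have hx' : (x : G) ∈ D := (Finset.mem_filter.1 hx).2
  have hy' : (y : G) ∈ D := (Finset.mem_filter.1 hy).2
  have h1 := hcon x hx' y hy'
  simpa using h1

/-- Hypergraphs with at most `(2 ^ m) ^ t` edges of size `t` at each vertex. -/
theorem lll_deg {G : Type*} [DecidableEq G] (m : ℕ) (𝒢 : Finset (Finset G))
    (h2 : ∀ D ∈ 𝒢, 2 ≤ D.card)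
    (h : ∀ v, ∀ t : ℕ, (𝒢.filter (fun D => v ∈ D ∧ D.card = t)).card ≤ (2 ^ m) ^ t) :
    ∃ f : G → Fin (2 ^ (2 * (m + 3) + 2)), ∀ D ∈ 𝒢, ∃ x ∈ D, ∃ y ∈ D, f x ≠ f y := by
  classical
  refine lll_hyperb (m + 3) (by omega) 𝒢 h2 (fun v => ?_)
  set 𝒟 := 𝒢.filter (fun D => v ∈ D) with h𝒟
  set N := 𝒢.sup Finset.card with hN
  have hmaps : ∀ D ∈ 𝒟, D.card ∈ Finset.range (N + 1) := by
    intro D hD
    have : D.card ≤ N := Finset.le_sup (f := Finset.card) (Finset.mem_filter.1 hD).1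
    exact Finset.mem_range.2 (by omega)
  rw [← Finset.sum_fiberwise_of_maps_to hmaps]
  have hterm : ∀ t ∈ Finset.range (N + 1), ∑ D ∈ 𝒟.filter (fun D => D.card = t),
      (1 / 2 ^ (m + 3) : ℝ) ^ D.card ≤ if t = 0 then 0 else (1 / 8 : ℝ) ^ t := by
    intro t _
    have e : ∑ D ∈ 𝒟.filter (fun D => D.card = t), (1 / 2 ^ (m + 3) : ℝ) ^ D.card =
        ((𝒟.filter (fun D => D.card = t)).card : ℝ) * (1 / 2 ^ (m + 3) : ℝ) ^ t := by
      rw [Finset.sum_congr rfl (g := fun _ => (1 / 2 ^ (m + 3) : ℝ) ^ t)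
        (fun D hD => by rw [(Finset.mem_filter.1 hD).2]), Finset.sum_const, nsmul_eq_mul]
    rw [e]
    split_ifs with h0
    · subst h0
      have : 𝒟.filter (fun D => D.card = 0) = ∅ := by
        rw [Finset.filter_eq_empty_iff]
        intro D hD h0
        have := h2 D (Finset.mem_filter.1 hD).1
        omega
      rw [this]
      simp
    · have h3 : (𝒟.filter (fun D => D.card = t)).card ≤ (2 ^ m) ^ t := by
        refine le_trans (Finset.card_le_card ?_) (h v t)
        intro D hD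
        obtain ⟨h4, h5⟩ := Finset.mem_filter.1 hD
        obtain ⟨h6, h7⟩ := Finset.mem_filter.1 h4
        exact Finset.mem_filter.2 ⟨h6, h7, h5⟩
      have h4 : ((𝒟.filter (fun D => D.card = t)).card : ℝ) ≤ ((2 : ℝ) ^ m) ^ t := by
        exact_mod_cast h3
      calc ((𝒟.filter (fun D => D.card = t)).card : ℝ) * (1 / 2 ^ (m + 3) : ℝ) ^ t
          ≤ ((2 : ℝ) ^ m) ^ t * (1 / 2 ^ (m + 3) : ℝ) ^ t :=
            mul_le_mul_of_nonneg_right h4 (by positivity)
        _ = (1 / 8 : ℝ) ^ t := by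
            rw [← mul_pow]
            congr 1
            rw [pow_add]
            field_simp
            norm_num
  refine (Finset.sum_le_sum hterm).trans ?_
  have h5 : ∀ n : ℕ, ∑ t ∈ Finset.range (n + 1), (if t = 0 then (0 : ℝ) else (1 / 8 : ℝ) ^ t) ≤
      1 / 7 - (1 / 8 : ℝ) ^ n / 7 := by
    intro n
    induction n with
    | zero => simp
    | succ n ih =>
      rw [Finset.sum_range_succ, if_neg (by omega)]
      have : (1 / 8 : ℝ) ^ (n + 1) = (1 / 8 : ℝ) ^ n / 8 := by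
        rw [pow_succ]
        ring
      rw [this]
      linarith
  have h6 := h5 N
  have h7 : (0 : ℝ) ≤ (1 / 8 : ℝ) ^ N / 7 := by positivity
  linarith

end Pool.Agent.Helper36.LD
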