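import Pool.Agent.Helper36.LD.Count
import Pool.Agent.Helper36.LD.Hyper
import Pool.Agent.RR.FinalNatU

/-!
Proportionately dissociated sets of small local defect.
-/

set_option autoImplicit false

namespace Pool.Agent.Helper36.LD

open Finset
open Pool.Agent.Helper36.LL (DSN)

/-- The relations in `V`. -/
def rels (V : Finset ℕ) : Finset (Finset ℕ × Finset ℕ) :=
  (V.powerset ×ˢ V.powerset).filter fun R =>
    Disjoint R.1 R.2 ∧ R.1.sum id = R.2.sum id ∧ (R.1 ∪ R.2).Nonempty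

theorem mem_rels {V : Finset ℕ} {R : Finset ℕ × Finset ℕ} : R ∈ rels V ↔
    (R.1 ⊆ V ∧ R.2 ⊆ V) ∧ Disjoint R.1 R.2 ∧ R.1.sum id = R.2.sum id ∧
      (R.1 ∪ R.2).Nonempty := by
  unfold rels
  rw [mem_filter, mem_product, mem_powerset, mem_powerset]

/-- The local condition. -/
def Loc (C : ℝ) (t₀ : ℕ) (A : Set ℕ) : Prop :=
  ∀ x ∈ A, ∀ t : ℕ, t₀ ≤ t → ∀ S : Finset (Finset ℕ × Finset ℕ), S.Nonempty →
    (∀ R ∈ S, (↑R.1 : Set ℕ) ⊆ A ∧ (↑R.2 : Set ℕ) ⊆ A ∧ Disjoint R.1 R.2 ∧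
      R.1.sum id = R.2.sum id ∧ R.1.card + R.2.card = t ∧ x ∈ R.1 ∪ R.2) →
    ∃ D : Finset ℕ, D ⊆ S.biUnion (fun R => R.1 ∪ R.2) ∧ DSN D ∧
      ((((S.biUnion fun R => R.1 ∪ R.2) \ D).card : ℕ) : ℝ) ≤ C * (t + Real.log S.card)

theorem not_DSN_of_rel {R : Finset ℕ × Finset ℕ} (h1 : Disjoint R.1 R.2)
    (h2 : R.1.sum id = R.2.sum id) (h3 : (R.1 ∪ R.2).Nonempty) : ¬ DSN (R.1 ∪ R.2) := by
  intro h
  refine h R.1 R.2 subset_union_left subset_union_right ?_ h2
  intro he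
  rw [he, disjoint_self, Finset.bot_eq_empty] at h1
  rw [he, h1] at h3
  simp at h3

theorem finite_part {A W : Set ℕ} (h0 : 0 ∉ A) (hWA : W ⊆ A) {C : ℝ} {t₀ q : ℕ} (hq : 1 ≤ q)
    (hCq : 4 * C ≤ 2 ^ q) (hA : Loc C t₀ A)
    (hW : ∀ B : Finset ℕ, (↑B : Set ℕ) ⊆ W → B.card ≤ t₀ → DSN B)
    (V : Finset ℕ) (hV : (↑V : Set ℕ) ⊆ W) :
    ∃ f : ℕ → Fin (2 ^ (2 * ((2 * q + 2) + 3) + 2)), ∀ B : Finset ℕ, B ⊆ V →
      (∀ x ∈ B, ∀ y ∈ B, f x = f y) → DSN B := by
  classical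
  obtain ⟨f, hf⟩ := lll_deg (2 * q + 2) ((rels V).image fun R => R.1 ∪ R.2) (by
    intro E hE
    obtain ⟨R, hR, rfl⟩ := mem_image.1 hE
    obtain ⟨⟨hR1, hR2⟩, hd, hs, hne⟩ := mem_rels.1 hR
    by_contra hlt
    have hc : (R.1 ∪ R.2).card = 1 := by
      have := hne.card_pos
      omega
    obtain ⟨x, hx⟩ := card_eq_one.1 hc
    have hxV : x ∈ V := (union_subset hR1 hR2) (by rw [hx]; exact mem_singleton_self x)
    have hx0 : x ≠ 0 := by
      rintro rfl
      exact h0 (hWA (hV (mem_coe.2 hxV)))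
    have hcu := card_union_of_disjoint hd
    rw [hc] at hcu
    rcases R.1.eq_empty_or_nonempty with h1 | h1
    · rw [h1, empty_union] at hx
      rw [h1, hx] at hs
      simp only [sum_empty, sum_singleton, id] at hs
      exact hx0 hs.symm
    · rcases R.2.eq_empty_or_nonempty with h2 | h2
      · rw [h2, union_empty] at hx
        rw [h2, hx] at hs
        simp only [sum_empty, sum_singleton, id] at hs
        exact hx0 hs
      · have := h1.card_pos
        have := h2.card_pos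
        omega) (by
    intro v t
    set S := (rels V).filter (fun R => v ∈ R.1 ∪ R.2 ∧ (R.1 ∪ R.2).card = t) with hS
    have hle : (((rels V).image fun R => R.1 ∪ R.2).filter
        (fun D => v ∈ D ∧ D.card = t)).card ≤ S.card := by
      refine le_trans (card_le_card ?_) (card_image_le (s := S) (f := fun R => R.1 ∪ R.2))
      intro E hE
      obtain ⟨hE1, hE2⟩ := mem_filter.1 hE
      obtain ⟨R, hR, rfl⟩ := mem_image.1 hE1
      exact mem_image.2 ⟨R, mem_filter.2 ⟨hR, hE2⟩, rfl⟩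
    refine hle.trans ?_
    rcases S.eq_empty_or_nonempty with hSe | hSne
    · rw [hSe]
      simp
    · have hprop : ∀ R ∈ S, (R.1 ⊆ V ∧ R.2 ⊆ V) ∧ Disjoint R.1 R.2 ∧
          R.1.sum id = R.2.sum id ∧ (R.1 ∪ R.2).Nonempty ∧ R.1.card + R.2.card = t ∧
          v ∈ R.1 ∪ R.2 := by
        intro R hR
        obtain ⟨h1, h2, h3⟩ := mem_filter.1 hR
        obtain ⟨h4, h5, h6, h7⟩ := mem_rels.1 h1
        exact ⟨h4, h5, h6, h7, by rw [← card_union_of_disjoint h5]; exact h3, h2⟩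
      obtain ⟨R₀, hR₀⟩ := hSne
      obtain ⟨⟨a1, a2⟩, a3, a4, a5, a6, a7⟩ := hprop R₀ hR₀
      have ht : t₀ ≤ t := by
        by_contra hlt
        refine not_DSN_of_rel a3 a4 a5 (hW _ ?_ ?_)
        · intro x hx
          exact hV (mem_coe.2 ((union_subset a1 a2) (mem_coe.1 hx)))
        · rw [card_union_of_disjoint a3]
          omega
      have hvA : v ∈ A := hWA (hV (mem_coe.2 ((union_subset a1 a2) a7)))
      obtain ⟨D, hD1, hD2, hD3⟩ := hA v hvA t ht S ⟨R₀, hR₀⟩ (by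
        intro R hR
        obtain ⟨⟨b1, b2⟩, b3, b4, _, b6, b7⟩ := hprop R hR
        exact ⟨fun x hx => hWA (hV (mem_coe.2 (b1 (mem_coe.1 hx)))),
          fun x hx => hWA (hV (mem_coe.2 (b2 (mem_coe.1 hx)))), b3, b4, b6, b7⟩)
      exact few ⟨R₀, hR₀⟩ (fun R hR => by
        obtain ⟨_, b3, b4, _, b6, _⟩ := hprop R hR
        exact ⟨b3, b4, b6⟩) hD1 hD2 hq hCq hD3)
  refine ⟨f, fun B hB hmono X Y hX hY hne hsum => ?_⟩
  have hs : (X \ Y).sum id = (Y \ X).sum id := by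
    have e1 : (X ∩ Y).sum id + (X \ Y).sum id = X.sum id :=
      sum_inter_add_sum_sdiff X Y (id : ℕ → ℕ)
    have e2 : (X ∩ Y).sum id + (Y \ X).sum id = Y.sum id := by
      rw [inter_comm X Y]
      exact sum_inter_add_sum_sdiff Y X (id : ℕ → ℕ)
    have e3 : X.sum id = Y.sum id := hsum
    omega
  have hne' : (X \ Y ∪ Y \ X).Nonempty := by
    rw [nonempty_iff_ne_empty]
    intro h0
    rw [union_eq_empty, sdiff_eq_empty_iff_subset, sdiff_eq_empty_iff_subset] at h0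
    exact hne (Subset.antisymm h0.1 h0.2)
  have hsub : X \ Y ∪ Y \ X ⊆ B :=
    union_subset (sdiff_subset.trans hX) (sdiff_subset.trans hY)
  obtain ⟨x, hx, y, hy, hxy⟩ := hf (X \ Y ∪ Y \ X) (mem_image.2 ⟨(X \ Y, Y \ X),
    mem_rels.2 ⟨⟨(sdiff_subset.trans hX).trans hB, (sdiff_subset.trans hY).trans hB⟩,
      disjoint_sdiff_sdiff, hs, hne'⟩, rfl⟩)
  exact hxy (hmono x (hsub hx) y (hsub hy))

theorem le_tow (m : ℕ) : m ≤ (fun j : ℕ => 2 ^ j)^[m] 1 := by
  induction m with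
  | zero => simp
  | succ m ih =>
    rw [Function.iterate_succ_apply']
    exact Nat.succ_le_of_lt (lt_of_le_of_lt ih Nat.lt_two_pow_self)

theorem part_one (c C : ℝ) (t₀ : ℕ) (hc : 0 < c) : ∃ K : ℕ, ∀ A : Set ℕ,
    (∀ B : Finset ℕ, (↑B : Set ℕ) ⊆ A → ∃ D : Finset ℕ, D ⊆ B ∧ DSN D ∧
      c * (B.card : ℝ) ≤ (D.card : ℝ)) →
    Loc C t₀ A →
    ∃ F : Fin K → Set ℕ, A = ⋃ i, F i ∧
      ∀ i, ∀ X Y : Finset ℕ, (↑X : Set ℕ) ⊆ F i → (↑Y : Set ℕ) ⊆ F i → X ≠ Y →
        X.sum id ≠ Y.sum id := by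
  classical
  obtain ⟨K₀, hK₀⟩ := Pool.Agent.RR.uniform_nat c hc
  obtain ⟨q₀, hq₀⟩ := pow_unbounded_of_one_lt (4 * C) (by norm_num : (1 : ℝ) < 2)
  set q := q₀ + 1 with hq
  have hCq : 4 * C ≤ 2 ^ q := by
    refine hq₀.le.trans ?_
    exact pow_le_pow_right₀ (by norm_num) (by omega)
  set m := t₀ + 1 with hm
  set K₁ := 2 ^ (K₀ * m) ^ m with hK₁
  set K₂ := 2 ^ (2 * ((2 * q + 2) + 3) + 2) with hK₂
  refine ⟨K₁ * K₂, fun A hA hloc => ?_⟩
  have h0 : (0 : ℕ) ∉ A := by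
    intro h0
    obtain ⟨D, hD, hd, hcard⟩ := hA {0} (by simpa using h0)
    rw [card_singleton, Nat.cast_one, mul_one] at hcard
    have h1 : 0 < D.card := by
      have : (0 : ℝ) < D.card := by linarith
      exact_mod_cast this
    obtain ⟨x, hx⟩ := card_pos.1 h1
    have hx0 : x = 0 := mem_singleton.1 (hD hx)
    subst hx0
    refine hd {0} ∅ (singleton_subset_iff.2 hx) (empty_subset _) (by simp) (by simp)
  obtain ⟨F₁, hF₁, hF₁'⟩ := hK₀ A hA m t₀ (by omega) (le_trans (by omega) (le_tow m))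
  have hsubA : ∀ i, F₁ i ⊆ A := by
    intro i x hx
    rw [hF₁]
    exact Set.mem_iUnion.2 ⟨i, hx⟩
  have hstep : ∀ i, ∃ f : ℕ → Fin K₂, ∀ B : Finset ℕ, (↑B : Set ℕ) ⊆ F₁ i →
      (∀ x ∈ B, ∀ y ∈ B, f x = f y) → DSN B := fun i =>
    Pool.Agent.S12.compactness K₂ (F₁ i) DSN
      (fun V hV => finite_part h0 (hsubA i) (by omega) hCq hloc (hF₁' i) V hV)
  choose f hf using hstep
  refine ⟨fun k => {x | x ∈ F₁ (finProdFinEquiv.symm k).1 ∧
    f (finProdFinEquiv.symm k).1 x = (finProdFinEquiv.symm k).2}, ?_, ?_⟩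
  · ext x
    simp only [Set.mem_iUnion, Set.mem_ofPred_eq]
    constructor
    · intro hx
      rw [hF₁] at hx
      obtain ⟨i, hi⟩ := Set.mem_iUnion.1 hx
      refine ⟨finProdFinEquiv (i, f i x), ?_⟩
      rw [Equiv.symm_apply_apply]
      exact ⟨hi, rfl⟩
    · rintro ⟨k, hk, _⟩
      exact hsubA _ hk
  · intro k X Y hX hY hne
    have hB : (↑(X ∪ Y) : Set ℕ) ⊆ {x | x ∈ F₁ (finProdFinEquiv.symm k).1 ∧
        f (finProdFinEquiv.symm k).1 x = (finProdFinEquiv.symm k).2} := by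
      rw [coe_union]
      exact Set.union_subset hX hY
    refine hf (finProdFinEquiv.symm k).1 (X ∪ Y) (fun x hx => (hB hx).1) ?_ X Y
      subset_union_left subset_union_right hne
    intro x hx y hy
    exact (hB (mem_coe.2 hx)).2.trans (hB (mem_coe.2 hy)).2.symm

theorem DSN_singleton {b : ℕ} (hb : b ≠ 0) : DSN {b} := by
  intro X Y hX hY hne
  rcases subset_singleton_iff.1 hX with rfl | rfl <;>
    rcases subset_singleton_iff.1 hY with rfl | rfl
  · exact absurd rfl hne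
  · simpa using hb.symm
  · simpa using hb
  · exact absurd rfl hne

theorem part_two (C : ℝ) : ∃ K : ℕ, ∀ A : Set ℕ, 0 ∉ A →
    (∀ B : Finset ℕ, (↑B : Set ℕ) ⊆ A → B.Nonempty → ∃ D : Finset ℕ, D ⊆ B ∧ DSN D ∧
      (((B \ D).card : ℕ) : ℝ) ≤ C * (1 + Real.log B.card)) →
    ∃ F : Fin K → Set ℕ, A = ⋃ i, F i ∧
      ∀ i, ∀ X Y : Finset ℕ, (↑X : Set ℕ) ⊆ F i → (↑Y : Set ℕ) ⊆ F i → X ≠ Y →
        X.sum id ≠ Y.sum id := by
  classical
  set C' := max C 0 with hC'
  have hC0 : 0 ≤ C' := le_max_right _ _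
  set a : ℝ := 4 * C' + 4 with ha
  have ha0 : 0 < a := by positivity
  have ha1 : 1 ≤ a := by linarith
  have hla : 0 ≤ Real.log a := Real.log_nonneg ha1
  obtain ⟨n₀, hn₀⟩ := exists_nat_ge (4 * C' * Real.log a)
  set c : ℝ := 1 / (2 * (n₀ + 1)) with hc
  have hc0 : 0 < c := by positivity
  have hc2 : c ≤ 1 / 2 := by
    rw [hc]
    apply one_div_le_one_div_of_le (by norm_num)
    have : (0 : ℝ) ≤ n₀ := Nat.cast_nonneg _
    linarith
  obtain ⟨K, hK⟩ := part_one c C' 0 hc0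
  refine ⟨K, fun A h0 hA => hK A ?_ ?_⟩
  · intro B hB
    rcases B.eq_empty_or_nonempty with rfl | hBne
    · exact ⟨∅, subset_rfl, fun X Y hX hY hne => absurd
        ((subset_empty.1 hX).trans (subset_empty.1 hY).symm) hne, by simp⟩
    · have hn1 : (1 : ℝ) ≤ B.card := by exact_mod_cast hBne.card_pos
      by_cases hn : B.card ≤ n₀
      · obtain ⟨b, hb⟩ := hBne
        have hb0 : b ≠ 0 := by
          rintro rfl
          exact h0 (hB (mem_coe.2 hb))
        refine ⟨{b}, singleton_subset_iff.2 hb, DSN_singleton hb0, ?_⟩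
        rw [card_singleton, Nat.cast_one, hc, one_div, inv_mul_le_iff₀ (by positivity)]
        have : (B.card : ℝ) ≤ n₀ := by exact_mod_cast hn
        linarith
      · obtain ⟨D, hD, hd, hdef⟩ := hA B hB hBne
        refine ⟨D, hD, hd, ?_⟩
        have hlog : 0 ≤ Real.log B.card := Real.log_nonneg hn1
        have e1 : (((B \ D).card : ℕ) : ℝ) + D.card = B.card := by
          exact_mod_cast card_sdiff_add_card_eq_card hD
        have e2 : C * (1 + Real.log B.card) ≤ C' * (1 + Real.log B.card) :=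
          mul_le_mul_of_nonneg_right (le_max_left _ _) (by linarith)
        have e3 : 1 + Real.log B.card ≤ B.card / a + Real.log a := by
          have h1 := Real.log_le_sub_one_of_pos (show (0 : ℝ) < B.card / a by positivity)
          rw [Real.log_div (by positivity) (by positivity)] at h1
          linarith
        have e4 : C' * (1 + Real.log B.card) ≤ C' * (B.card / a + Real.log a) :=
          mul_le_mul_of_nonneg_left e3 hC0
        have e5 : C' * (B.card / a) ≤ B.card / 4 := by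
          rw [← mul_div_assoc, div_le_div_iff₀ ha0 (by norm_num)]
          have : (0 : ℝ) ≤ B.card := by linarith
          rw [ha]
          nlinarith
        have e6 : (n₀ : ℝ) ≤ B.card := by
          have : n₀ ≤ B.card := by omega
          exact_mod_cast this
        have e7 : C' * Real.log a ≤ B.card / 4 := by linarith
        have e8 : c * (B.card : ℝ) ≤ 1 / 2 * B.card :=
          mul_le_mul_of_nonneg_right hc2 (by linarith)
        linarith [mul_add C' ((B.card : ℝ) / a) (Real.log a)]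
  · intro x hx t _ S hSne hS
    set U := S.biUnion (fun R => R.1 ∪ R.2) with hU
    obtain ⟨R₀, hR₀⟩ := hSne
    have hxU : x ∈ U := mem_biUnion.2 ⟨R₀, hR₀, (hS R₀ hR₀).2.2.2.2.2⟩
    obtain ⟨D, hD, hd, hdef⟩ := hA U (by
      intro y hy
      obtain ⟨R, hR, hy'⟩ := mem_biUnion.1 (mem_coe.1 hy)
      rcases mem_union.1 hy' with h | h
      · exact (hS R hR).1 (mem_coe.2 h)
      · exact (hS R hR).2.1 (mem_coe.2 h)) ⟨x, hxU⟩
    refine ⟨D, hD, hd, hdef.trans ?_⟩
    have ht : 1 ≤ t := by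
      have h1 := (hS R₀ hR₀).2.2.2.2.1
      have h2 : 0 < (R₀.1 ∪ R₀.2).card := card_pos.2 ⟨x, (hS R₀ hR₀).2.2.2.2.2⟩
      have h3 := card_union_le R₀.1 R₀.2
      omega
    have hUle : U.card ≤ S.card * t := by
      refine card_biUnion_le_card_mul S _ t (fun R hR => ?_)
      exact (card_union_le _ _).trans (hS R hR).2.2.2.2.1.le
    have hU1 : 1 ≤ U.card := card_pos.2 ⟨x, hxU⟩
    have hS1 : 1 ≤ S.card := card_pos.2 ⟨R₀, hR₀⟩
    have hU1' : (1 : ℝ) ≤ U.card := by exact_mod_cast hU1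
    have hS1' : (1 : ℝ) ≤ S.card := by exact_mod_cast hS1
    have ht' : (1 : ℝ) ≤ t := by exact_mod_cast ht
    have hlogU : Real.log U.card ≤ Real.log S.card + Real.log t := by
      rw [← Real.log_mul (by positivity) (by positivity)]
      refine Real.log_le_log (by positivity) ?_
      exact_mod_cast hUle
    have hlogt : 1 + Real.log t ≤ t := by
      have := Real.log_le_sub_one_of_pos (show (0 : ℝ) < t by positivity)
      linarith
    have hlogU0 : 0 ≤ Real.log U.card := Real.log_nonneg hU1'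
    calc C * (1 + Real.log U.card) ≤ C' * (1 + Real.log U.card) :=
          mul_le_mul_of_nonneg_right (le_max_left _ _) (by linarith)
      _ ≤ C' * (t + Real.log S.card) := by
          refine mul_le_mul_of_nonneg_left ?_ hC0
          linarith

end Pool.Agent.Helper36.LD
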